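import Pool.Agent.Helper99.AO.H4
import Pool.Agent.Helper92.AO.H3b
import Pool.Agent.Helper7.AO.H2b

/-!
# AO, H4: the number of collisions of a tuple (cells)
-/

open MeasureTheory Real Set Filter Topology

set_option autoImplicit false

namespace Pool.Agent.Helper99.AO

open Pool.Agent.Helper22.AE Pool.Agent.Helper60.AD Pool.Agent.Helper60.AO

open Classical in
theorem cell_count {J n M s j : ℕ} (hJ : 1 ≤ J) (hM : 1 ≤ M) {a : Fin J → Fin M} (ha : a ∈ gapT J M) {η lam : ℝ} (hη : 0 ≤ η)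
    (hlam : 1 ≤ lam) (hg : Gen M s j (lam / 2)) (k : Fin J → ℤ × ℤ) (_hk : k ∈ Fintype.piFinset (Ch n M s j a)) :
    (((Fintype.piFinset (Ch n M s j a)).filter (fun k' => ∀ l < 2 * J, ‖Mom k k' l‖ ≤ η)).card : ℝ) ≤ Nc J M s η lam :=
  cell_count_of hJ hM hη (fun {_} hA {_ _} hk hk' hS i => Pool.Agent.Helper92.AO.same_cell hJ hM ha hA hk hk' hS i)
    (fun k k' h => Pool.Agent.Helper7.AO.real_mom_tt k k' h) hlam hg k

end Pool.Agent.Helper99.AO
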