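import Pool.Agent.Helper60.AO.Defs

/-!
# AO, H4: the number of collisions of a tuple (cells)
-/

open MeasureTheory Real Set Filter Topology

set_option autoImplicit false

namespace Pool.Agent.Helper99.AO

open Pool.Agent.Helper22.AE Pool.Agent.Helper60.AD Pool.Agent.Helper60.AO

private lemma abs_fst_le99 (v : ℤ × ℤ) : |(v.1 : ℝ)| ≤ ‖cz v‖ ∧ |(v.2 : ℝ)| ≤ ‖cz v‖ :=
  ⟨Complex.abs_re_le_norm (cz v), Complex.abs_im_le_norm (cz v)⟩

theorem gen_half (M s j : ℕ) (hM : 1 ≤ M) : Gen M s j (1 / 2) := by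
  intro v hv _
  obtain ⟨h1, h2⟩ := abs_fst_le99 v
  have h3 : |(v.1 : ℝ)| < 1 := by linarith
  have h4 : |(v.2 : ℝ)| < 1 := by linarith
  have h5 : |v.1| < 1 := by exact_mod_cast h3
  have h6 : |v.2| < 1 := by exact_mod_cast h4
  ext
  · show v.1 = 0
    exact Int.abs_lt_one_iff.1 h5
  · show v.2 = 0
    exact Int.abs_lt_one_iff.1 h6

private lemma card_Icc99 {y : ℝ} (hy : 0 ≤ y) : ((Finset.Icc ⌊-y⌋ ⌊y⌋).card : ℝ) ≤ 2 * (y + 1) := by
  rw [Int.card_Icc]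
  have h1 : (⌊y⌋ : ℝ) ≤ y := Int.floor_le y
  have h2 : -y < (⌊-y⌋ : ℝ) + 1 := Int.lt_floor_add_one (-y)
  have h3 : (0 : ℤ) ≤ ⌊y⌋ + 1 - ⌊-y⌋ := by
    have h4 : ⌊-y⌋ ≤ ⌊y⌋ := Int.floor_le_floor (by linarith)
    omega
  have h4 : (((⌊y⌋ + 1 - ⌊-y⌋).toNat : ℕ) : ℝ) = ((⌊y⌋ + 1 - ⌊-y⌋ : ℤ) : ℝ) := by
    rw [← Int.cast_natCast, Int.toNat_of_nonneg h3]
  rw [h4]
  push_cast
  linarith

private lemma floor_eq_abs99 {x y ℓ : ℝ} (hℓ : 0 < ℓ) (h : ⌊x / ℓ⌋ = ⌊y / ℓ⌋) : |x - y| ≤ ℓ := by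
  have h1 := Int.floor_le (x / ℓ)
  have h2 := Int.lt_floor_add_one (x / ℓ)
  have h3 := Int.floor_le (y / ℓ)
  have h4 := Int.lt_floor_add_one (y / ℓ)
  rw [h] at h1 h2
  have h5 : |x / ℓ - y / ℓ| ≤ 1 := by
    rw [abs_le]
    constructor <;> linarith
  have h6 : x / ℓ - y / ℓ = (x - y) / ℓ := by ring
  rw [h6, abs_div, abs_of_pos hℓ, div_le_one hℓ] at h5
  exact h5

theorem CJ_pos99 {J : ℕ} (hJ : 1 ≤ J) : 0 < CJ J := by
  unfold CJ
  have : (0 : ℝ) < J := by exact_mod_cast (by omega : 0 < J)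
  positivity

open Classical in
/-- the count, given the lemma on two tuples in the same cell -/
theorem cell_count_of {J n M s j : ℕ} (hJ : 1 ≤ J) (hM : 1 ≤ M) {a : Fin J → Fin M} {η lam : ℝ} (hη : 0 ≤ η)
    (hcell : ∀ {A : ℝ}, 0 ≤ A → ∀ {k k' : Fin J → ℤ × ℤ}, k ∈ Fintype.piFinset (Ch n M s j a) → k' ∈ Fintype.piFinset (Ch n M s j a) →
      (∀ m < 2 * J, |Sm M s j k m - Sm M s j k' m| ≤ A) → ∀ i : Fin J,
      ‖cz (k i - k' i)‖ ≤ CJ J * (M : ℝ) ^ (4 * J) * A ∧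
        |(cz (k i - k' i) * (starRingEnd ℂ) (z0 M s j)).im| ≤ CJ J * (M : ℝ) ^ (4 * J) * A / (M : ℝ) ^ s)
    (hmom : ∀ k k' : Fin J → ℤ × ℤ, (∀ l < 2 * J, ‖Mom k k' l‖ ≤ η) → ∀ m < 2 * J, |Sm M s j k m - Sm M s j k' m| ≤ (M : ℝ) ^ (s * m) * η)
    (hlam : 1 ≤ lam) (hg : Gen M s j (lam / 2)) (k : Fin J → ℤ × ℤ) :
    (((Fintype.piFinset (Ch n M s j a)).filter (fun k' => ∀ l < 2 * J, ‖Mom k k' l‖ ≤ η)).card : ℝ) ≤ Nc J M s η lam := by
  have hC := CJ_pos99 hJ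
  have hM0 : (0 : ℝ) < M := by exact_mod_cast (by omega : 0 < M)
  obtain ⟨q, hq⟩ : ∃ q : ℝ, q = 2 * CJ J * (M : ℝ) ^ (4 * J) := ⟨_, rfl⟩
  have hq0 : 0 < q := by
    rw [hq]
    positivity
  have hlam0 : 0 < lam := by linarith
  obtain ⟨el, hel⟩ : ∃ el : ℕ → ℝ, el = fun m => if m = 2 * J - 1 then lam / q else 1 / q := ⟨_, rfl⟩
  have hel0 : ∀ m, 0 < el m := by
    intro m
    rw [hel]
    simp only
    split_ifs <;> positivity
  have hel1 : ∀ m, el m ≤ lam / q := by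
    intro m
    rw [hel]
    simp only
    split_ifs
    · exact le_rfl
    · exact div_le_div_of_nonneg_right hlam hq0.le
  obtain ⟨B, hB⟩ : ∃ B : ℕ → ℝ, B = fun m => (M : ℝ) ^ (s * m) * η := ⟨_, rfl⟩
  have hB0 : ∀ m, 0 ≤ B m := by
    intro m
    rw [hB]
    simp only
    positivity
  obtain ⟨f, hf⟩ : ∃ f : (Fin J → ℤ × ℤ) → Fin (2 * J) → ℤ, ∀ k' m, f k' m = ⌊(Sm M s j k' m - Sm M s j k m) / el m⌋ := ⟨fun k' m => ⌊(Sm M s j k' m - Sm M s j k m) / el m⌋, fun _ _ => rfl⟩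
  have hcard : ((Fintype.piFinset (Ch n M s j a)).filter (fun k' => ∀ l < 2 * J, ‖Mom k k' l‖ ≤ η)).card ≤
      (Fintype.piFinset fun m : Fin (2 * J) => Finset.Icc ⌊-(B m / el m)⌋ ⌊B m / el m⌋).card := by
    refine Finset.card_le_card_of_injOn f ?_ ?_
    · intro k' hk'
      rw [Finset.mem_coe, Finset.mem_filter] at hk'
      rw [Finset.mem_coe, Fintype.mem_piFinset]
      intro m
      have h1 := hmom k k' hk'.2 m m.2
      have h2 : |Sm M s j k' m - Sm M s j k m| ≤ B m := by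
        rw [abs_sub_comm, hB]
        exact h1
      have h3 := abs_le.1 h2
      rw [Finset.mem_Icc, hf]
      constructor
      · refine Int.floor_le_floor ?_
        rw [← neg_div]
        exact div_le_div_of_nonneg_right h3.1 (hel0 m).le
      · exact Int.floor_le_floor (div_le_div_of_nonneg_right h3.2 (hel0 m).le)
    · intro k' hk' k'' hk'' he
      rw [Finset.mem_coe, Finset.mem_filter] at hk' hk''
      have h1 : ∀ m < 2 * J, |Sm M s j k' m - Sm M s j k'' m| ≤ lam / q := by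
        intro m hm
        have h2 := congrFun he ⟨m, hm⟩
        rw [hf, hf] at h2
        have h3 := floor_eq_abs99 (hel0 m) h2
        have h4 : Sm M s j k' m - Sm M s j k m - (Sm M s j k'' m - Sm M s j k m) = Sm M s j k' m - Sm M s j k'' m := by ring
        rw [h4] at h3
        exact h3.trans (hel1 m)
      have h2 := hcell (A := lam / q) (by positivity) hk'.1 hk''.1 h1
      funext i
      obtain ⟨h3, h4⟩ := h2 i
      have h5 : CJ J * (M : ℝ) ^ (4 * J) * (lam / q) = lam / 2 := by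
        rw [hq]
        field_simp
      rw [h5] at h3 h4
      have h6 := hg (k' i - k'' i) h3 h4
      exact sub_eq_zero.1 h6
  have hprod : ((Fintype.piFinset fun m : Fin (2 * J) => Finset.Icc ⌊-(B m / el m)⌋ ⌊B m / el m⌋).card : ℝ) ≤
      ∏ m ∈ Finset.range (2 * J), (2 * (B m / el m + 1)) := by
    rw [Fintype.card_piFinset, Nat.cast_prod, ← Fin.prod_univ_eq_prod_range (fun m => 2 * (B m / el m + 1))]
    refine Finset.prod_le_prod (fun _ _ => Nat.cast_nonneg _) fun m _ => ?_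
    exact card_Icc99 (div_nonneg (hB0 m) (hel0 m).le)
  have hJJ : 2 * J = (2 * J - 1) + 1 := by omega
  have hval : ∏ m ∈ Finset.range (2 * J), (2 * (B m / el m + 1)) = Nc J M s η lam := by
    have hs : ∏ m ∈ Finset.range (2 * J), (B m / el m + 1) =
        (∏ m ∈ Finset.range (2 * J - 1), (B m / el m + 1)) * (B (2 * J - 1) / el (2 * J - 1) + 1) := by
      nth_rewrite 1 [hJJ]
      exact Finset.prod_range_succ _ _
    rw [Finset.prod_mul_distrib, Finset.prod_const, Finset.card_range, pow_mul, hs]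
    unfold Nc
    have e1 : ∏ m ∈ Finset.range (2 * J - 1), (B m / el m + 1) =
        ∏ m ∈ Finset.range (2 * J - 1), ((M : ℝ) ^ (s * m) * η * (2 * CJ J * (M : ℝ) ^ (4 * J)) + 1) := by
      refine Finset.prod_congr rfl fun m hm => ?_
      rw [Finset.mem_range] at hm
      rw [hel, hB]
      simp only
      rw [if_neg (by omega), ← hq]
      field_simp
    have e2 : B (2 * J - 1) / el (2 * J - 1) = (M : ℝ) ^ (s * (2 * J - 1)) * η * (2 * CJ J * (M : ℝ) ^ (4 * J)) / lam := by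
      rw [hel, hB]
      simp only
      rw [if_true, ← hq]
      field_simp
    rw [e1, e2]
    norm_num
    ring
  have h1 : (((Fintype.piFinset (Ch n M s j a)).filter (fun k' => ∀ l < 2 * J, ‖Mom k k' l‖ ≤ η)).card : ℝ) ≤
      ((Fintype.piFinset fun m : Fin (2 * J) => Finset.Icc ⌊-(B m / el m)⌋ ⌊B m / el m⌋).card : ℝ) := by exact_mod_cast hcard
  exact h1.trans (hprod.trans hval.le)

end Pool.Agent.Helper99.AO
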